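import Pool.Agent.W543.WM.Double

/-!
# The asymptotic criterion
-/

universe u v

namespace Pool.Agent.W543.WM.Asym

open Pool.Agent.W543.WM

variable {F : Type u} [Field F]

theorem exists_of_not_pure (M : WNModule.{u, v} F) (i : ℤ)
    (hs : ∀ r : ℕ, Module.finrank F (M.wt (i + r)) = Module.finrank F (M.wt (i - r)))
    (h : ¬ M.Pure i) : ∃ r : ℕ, 1 ≤ r ∧ ∃ x ∈ M.wt (i + r), x ≠ 0 ∧ (M.N ^ r) x = 0 := by
  by_contra hc
  push Not at hc
  refine h fun r => ?_
  rcases Nat.eq_zero_or_pos r with h0 | hr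
  · subst h0
    refine ⟨fun x _ h => by simpa using h, fun y hy => ⟨y, by simpa using hy, by simp⟩⟩
  · have hinj : ∀ x ∈ M.wt (i + r), (M.N ^ r) x = 0 → x = 0 := fun x hx hx0 => by
      by_contra hne
      exact hc r hr x hx hne hx0
    refine ⟨hinj, ?_⟩
    have hmap : ∀ x ∈ M.wt (i + r), (M.N ^ r) x ∈ M.wt (i - r) := by
      intro x hx
      have := M.pow_mem_wt (i + r) x hx r
      have h : i + (r : ℤ) - 2 * r = i - r := by ring
      rwa [h] at this
    let f : M.wt (i + r) →ₗ[F] M.wt (i - r) := (M.N ^ r).restrict hmap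
    have hf : Function.Injective f := by
      rw [← LinearMap.ker_eq_bot, LinearMap.ker_eq_bot']
      intro x hx
      have : (M.N ^ r) (x : M.V) = 0 := by
        have := congrArg Subtype.val hx
        simpa [f] using this
      exact Subtype.ext (hinj x x.2 this)
    have hsurj := (LinearMap.injective_iff_surjective_of_finrank_eq_finrank (hs r)).1 hf
    intro y hy
    obtain ⟨x, hx⟩ := hsurj ⟨y, hy⟩
    exact ⟨x, x.2, by simpa [f] using congrArg Subtype.val hx⟩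

variable {P : ProductClass.{u, v} F}

theorem kernel_le_of_pure (X : P.Obj) (i w : ℤ) (h : (P.H X i).Pure i)
    (hw : KernelWeight P X i w) : w ≤ i := by
  obtain ⟨x, hx, hx0, hN⟩ := hw
  by_contra hlt
  push Not at hlt
  obtain ⟨r, hr⟩ := Int.eq_ofNat_of_zero_le (sub_nonneg.2 hlt.le)
  have hr1 : 1 ≤ r := by omega
  have hwr : w = i + r := by omega
  subst hwr
  obtain ⟨s, rfl⟩ : ∃ s, r = s + 1 := ⟨r - 1, by omega⟩
  exact hx0 ((h (s + 1)).1 x hx (by rw [pow_succ, Module.End.mul_apply, hN, map_zero]))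

theorem kernel_of_not_pure (hP : IsKunneth P) (X : P.Obj) (i : ℤ) (h : ¬ (P.H X i).Pure i) :
    ∃ w : ℤ, 2 * (i + 1) ≤ w ∧ ∀ k : ℕ, KernelWeight P (P.square (k + 1) X)
      (2 ^ (k + 1) * i) (2 ^ k * w) := by
  obtain ⟨r, hr, x, hx, h0, hN⟩ := exists_of_not_pure _ i (hP.symm X i) h
  obtain ⟨w, hw, y, hy, hy0, hyN⟩ := double hP X i r hr x hx h0 hN
  refine ⟨w, hw, fun k => ?_⟩
  have h1 : KernelWeight P (P.prod X X) (i + i) w := ⟨y, hy, hy0, hyN⟩
  have h2 := square_kernel hP _ _ _ h1 k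
  have h3 : (2 : ℤ) ^ k * (i + i) = 2 ^ (k + 1) * i := by ring
  rw [h3] at h2
  exact h2

theorem pure_of_square (hP : IsKunneth P) (X : P.Obj) (i : ℤ) (k : ℕ) (hk : 1 ≤ k)
    (h : ∀ w : ℤ, KernelWeight P (P.square k X) (2 ^ k * i) w → w < 2 ^ k * (i + 1)) :
    (P.H X i).Pure i := by
  by_contra hc
  obtain ⟨w, hw, hk'⟩ := kernel_of_not_pure hP X i hc
  obtain ⟨s, rfl⟩ : ∃ s, k = s + 1 := ⟨k - 1, by omega⟩
  have h1 := h _ (hk' s)
  have h2 : (2 : ℤ) ^ (s + 1) * (i + 1) ≤ 2 ^ s * w := by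
    have h3 : (2 : ℤ) ^ (s + 1) * (i + 1) = 2 ^ s * (2 * (i + 1)) := by ring
    rw [h3]
    exact mul_le_mul_of_nonneg_left hw (by positivity)
  omega

theorem asym (hP : IsKunneth P) : (∀ X i, (P.H X i).Pure i) ↔
    ∀ ε : ℝ, 0 < ε → ∃ C : ℝ, ∀ X (i w : ℤ), KernelWeight P X i w →
      (w : ℝ) ≤ i + ε * P.dim X + C := by
  constructor
  · intro h ε hε
    refine ⟨0, fun X i w hw => ?_⟩
    have h1 : (w : ℝ) ≤ i := by exact_mod_cast kernel_le_of_pure X i w (h X i) hw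
    have h2 : 0 ≤ ε * P.dim X := by positivity
    linarith
  · intro h X i
    by_contra hc
    obtain ⟨w, hw, hk⟩ := kernel_of_not_pure hP X i hc
    set n : ℝ := (P.dim X : ℝ) with hn
    have hn0 : 0 ≤ n := by positivity
    obtain ⟨C, hC⟩ := h (1 / (2 * (n + 1))) (by positivity)
    obtain ⟨k, hk'⟩ := pow_unbounded_of_one_lt C (one_lt_two : (1 : ℝ) < 2)
    have h1 := hC _ _ _ (hk k)
    rw [dim_square hP] at h1
    push_cast at h1
    rw [← hn] at h1
    have hw' : (2 : ℝ) * (i + 1) ≤ w := by exact_mod_cast hw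
    have h2k : (0 : ℝ) < 2 ^ k := by positivity
    have h3 : (2 : ℝ) ^ k * (2 * (i + 1)) ≤ 2 ^ k * w := mul_le_mul_of_nonneg_left hw' h2k.le
    have h4 : 1 / (2 * (n + 1)) * (2 ^ (k + 1) * n) ≤ 2 ^ k := by
      rw [div_mul_eq_mul_div, div_le_iff₀ (by positivity)]
      rw [pow_succ]
      nlinarith
    have h5 : (2 : ℝ) ^ (k + 1) = 2 * 2 ^ k := by ring
    rw [h5] at h1
    rw [h5] at h4
    nlinarith

end Pool.Agent.W543.WM.Asym
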