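import Mathlib

/-!
# Weight-monodromy: modules with weight parts and a nilpotent operator

A `WNModule` is a finite dimensional vector space `V` (the cohomology `H^i(X_{\bar K}, ℚ_ℓ)` of a
variety over a local field) with the monodromy operator `N` and with the weight parts `wt w`
(the sum of the generalised eigenspaces of Frobenius of weight `w`).
-/

universe u v

namespace Pool.Agent.W543.WM

/-- A finite dimensional vector space with subspaces `wt w` (the weight parts) and an operator `N`
which lowers the weight by `2`. -/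
structure WNModule (F : Type u) [Field F] where
  V : Type v
  [acg : AddCommGroup V]
  [mod : Module F V]
  [fd : FiniteDimensional F V]
  /-- the monodromy operator -/
  N : V →ₗ[F] V
  /-- the part of weight `w` -/
  wt : ℤ → Submodule F V
  N_mem : ∀ w, ∀ x ∈ wt w, N x ∈ wt (w - 2)

attribute [instance] WNModule.acg WNModule.mod WNModule.fd

variable {F : Type u} [Field F]

/-- `N ^ r` is a bijection from the part of weight `i + r` to the part of weight `i - r`. -/
def WNModule.Bij (M : WNModule.{u, v} F) (i : ℤ) (r : ℕ) : Prop :=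
  (∀ x ∈ M.wt (i + r), (M.N ^ r) x = 0 → x = 0) ∧
    ∀ y ∈ M.wt (i - r), ∃ x ∈ M.wt (i + r), (M.N ^ r) x = y

/-- The monodromy-weight property in degree `i`: for every `r ≥ 0`, `N ^ r` is a bijection from
the part of weight `i + r` to the part of weight `i - r`; equivalently the weight filtration is
the monodromy filtration of `N` centred at `i`. -/
def WNModule.Pure (M : WNModule.{u, v} F) (i : ℤ) : Prop := ∀ r : ℕ, M.Bij i r

/-- No nonzero element of weight `w` is killed by `N`. -/
def WNModule.NoKernel (M : WNModule.{u, v} F) (w : ℤ) : Prop :=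
  ∀ x ∈ M.wt w, M.N x = 0 → x = 0

/-- The direct sum `M ⊕ M'`. -/
def WNModule.prod (M M' : WNModule.{u, v} F) : WNModule.{u, v} F where
  V := M.V × M'.V
  N := LinearMap.prodMap M.N M'.N
  wt w := (M.wt w).prod (M'.wt w)
  N_mem w x hx := ⟨M.N_mem w _ hx.1, M'.N_mem w _ hx.2⟩

/-- The Tate twist `M(-k)`. -/
def WNModule.twist (M : WNModule.{u, v} F) (k : ℕ) : WNModule.{u, v} F where
  V := M.V
  N := M.N
  wt w := M.wt (w - 2 * k)
  N_mem w x hx := by
    have h := M.N_mem _ x hx
    have h1 : w - 2 * (k : ℤ) - 2 = w - 2 - 2 * k := by ring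
    rwa [h1] at h

/-- The monodromy operator on `M ⊗ H^1(E)`: `N (b, c) = (N b + c, N c)`. -/
def tateN (M : WNModule.{u, v} F) : (M.V × M.V) →ₗ[F] (M.V × M.V) :=
  LinearMap.prod (M.N.comp (LinearMap.fst F M.V M.V) + LinearMap.snd F M.V M.V)
    (M.N.comp (LinearMap.snd F M.V M.V))

/-- `M ⊗ H^1(E)` for a Tate curve `E`: `H^1(E)` has a basis `e₀, e₂` of elements of weight `0` and
`2` with `N e₂ = e₀`, `N e₀ = 0`, and `(b, c)` stands for `b ⊗ e₀ + c ⊗ e₂`. -/
def WNModule.tate (M : WNModule.{u, v} F) : WNModule.{u, v} F where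
  V := M.V × M.V
  N := tateN M
  wt w := (M.wt w).prod (M.wt (w - 2))
  N_mem w x hx := ⟨Submodule.add_mem _ (M.N_mem w _ hx.1) hx.2, M.N_mem _ _ hx.2⟩

/-- Isomorphism, compatible with `N` and the weights. -/
def WNModule.Iso (M M' : WNModule.{u, v} F) : Prop :=
  ∃ e : M.V ≃ₗ[F] M'.V, (∀ x, e (M.N x) = M'.N (e x)) ∧
    ∀ (w : ℤ) x, x ∈ M.wt w ↔ e x ∈ M'.wt w

/-- The parts of `M` of weight `i + r` and `i - r` have the same dimension. -/
def WNModule.Symm (M : WNModule.{u, v} F) (i : ℤ) : Prop :=
  ∀ r : ℕ, Module.finrank F (M.wt (i + r)) = Module.finrank F (M.wt (i - r))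

/-- The weights of `M` are between `i - n` and `i + n`. -/
def WNModule.HasWeights (M : WNModule.{u, v} F) (i : ℤ) (n : ℕ) : Prop :=
  ∀ w : ℤ, (w < i - n ∨ i + n < w) → M.wt w = ⊥

/-- `V` is the direct sum of the weight parts. -/
def WNModule.Graded (M : WNModule.{u, v} F) : Prop := DirectSum.IsInternal M.wt

/-- A class of varieties over a local field (with their cohomology) which is stable under the
product with a Tate elliptic curve and with the projective line. -/
structure Degenerations (F : Type u) [Field F] where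
  Obj : Type v
  /-- dimension -/
  dim : Obj → ℕ
  /-- `H^i` of the geometric generic fibre -/
  H : Obj → ℤ → WNModule.{u, v} F
  /-- the product with the Tate curve -/
  timesTate : Obj → Obj
  /-- the product with the projective line -/
  timesLine : Obj → Obj

/-- Standard properties of the cohomology. -/
structure IsGeometric (D : Degenerations.{u, v} F) : Prop where
  dim_tate : ∀ X, D.dim (D.timesTate X) = D.dim X + 1
  dim_line : ∀ X, D.dim (D.timesLine X) = D.dim X + 1
  graded : ∀ X i, (D.H X i).Graded
  /-- the weights of `H^i` are between `i - dim X` and `i + dim X` -/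
  weights : ∀ X i, (D.H X i).HasWeights i (D.dim X)
  /-- Poincaré duality and the hard Lefschetz theorem -/
  symm : ∀ X i, (D.H X i).Symm i
  /-- hard Lefschetz theorem -/
  lefschetz : ∀ X (k : ℕ), ((D.H X (D.dim X - k)).twist k).Iso (D.H X (D.dim X + k))
  /-- Künneth formula for the product with the Tate curve -/
  tate : ∀ X i, (D.H (D.timesTate X) i).Iso
    ((D.H X i).prod ((D.H X (i - 1)).tate.prod ((D.H X (i - 2)).twist 1)))
  /-- Künneth formula for the product with the projective line -/
  line : ∀ X i, (D.H (D.timesLine X) i).Iso ((D.H X i).prod ((D.H X (i - 2)).twist 1))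

end Pool.Agent.W543.WM
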