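import Pool.Agent.W543.WM.ProdDefs

/-!
# Weight-monodromy: the trick `X ↦ X × X`
-/

set_option autoImplicit false

universe u v

namespace Pool.Agent.W543.WM

variable {F : Type u} [Field F]

theorem WNModule.pow_mem_wt (M : WNModule.{u, v} F) (a : ℤ) (x : M.V) (hx : x ∈ M.wt a) (j : ℕ) :
    (M.N ^ j) x ∈ M.wt (a - 2 * (j : ℤ)) := by
  induction j with
  | zero =>
    rw [pow_zero, Module.End.one_apply, Nat.cast_zero, mul_zero, sub_zero]
    exact hx
  | succ j ih =>
    rw [pow_succ', Module.End.mul_apply]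
    have h := M.N_mem _ _ ih
    have e : a - 2 * (j : ℤ) - 2 = a - 2 * ((j + 1 : ℕ) : ℤ) := by
      push_cast
      ring
    rw [e] at h
    exact h

theorem exists_dual {V : Type v} [AddCommGroup V] [Module F V] (z : V) (hz : z ≠ 0) :
    ∃ f : V →ₗ[F] F, f z ≠ 0 := by
  by_contra hc
  push Not at hc
  exact hz ((Module.forall_dual_apply_eq_zero_iff F z).1 hc)

theorem cross_ne {P : ProductClass.{u, v} F} (hP : IsKunneth P) (X Y : P.Obj) (i j : ℤ)
    (x : (P.H X i).V) (y : (P.H Y j).V) (hx : x ≠ 0) (hy : y ≠ 0) : P.cross X Y i j x y ≠ 0 := by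
  intro h0
  have h1 : TensorProduct.lift (P.cross X Y i j) (x ⊗ₜ[F] y) =
      TensorProduct.lift (P.cross X Y i j) 0 := by
    rw [TensorProduct.lift.tmul, h0, map_zero]
  have h2 := hP.cross_inj X Y i j h1
  obtain ⟨f, hf⟩ := exists_dual (F := F) x hx
  obtain ⟨g, hg⟩ := exists_dual (F := F) y hy
  have h3 : TensorProduct.lift ((LinearMap.mul F F).compl₁₂ f g) (x ⊗ₜ[F] y) = f x * g y := by
    rw [TensorProduct.lift.tmul, LinearMap.compl₁₂_apply, LinearMap.mul_apply']
  rw [h2, map_zero] at h3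
  exact mul_ne_zero hf hg h3.symm

theorem double_kernel {P : ProductClass.{u, v} F} (hP : IsKunneth P) (X : P.Obj) (i w : ℤ)
    (hw : KernelWeight P X i w) : KernelWeight P (P.prod X X) (i + i) (w + w) := by
  obtain ⟨x, hx, h0, hN⟩ := hw
  refine ⟨P.cross X X i i x x, hP.cross_wt X X i i w w x hx x hx, cross_ne hP X X i i x x h0 h0, ?_⟩
  rw [hP.cross_N, hN, map_zero, map_zero, LinearMap.zero_apply, add_zero]

theorem square_kernel {P : ProductClass.{u, v} F} (hP : IsKunneth P) (X : P.Obj) (i w : ℤ)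
    (hw : KernelWeight P X i w) (k : ℕ) :
    KernelWeight P (P.square k X) (2 ^ k * i) (2 ^ k * w) := by
  induction k generalizing X i w with
  | zero =>
    show KernelWeight P X (2 ^ 0 * i) (2 ^ 0 * w)
    rw [pow_zero, one_mul, one_mul]
    exact hw
  | succ k ih =>
    have h := ih (P.prod X X) (i + i) (w + w) (double_kernel hP X i w hw)
    have e1 : (2 : ℤ) ^ k * (i + i) = 2 ^ (k + 1) * i := by ring
    have e2 : (2 : ℤ) ^ k * (w + w) = 2 ^ (k + 1) * w := by ring
    rw [e1, e2] at h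
    exact h

theorem dim_square {P : ProductClass.{u, v} F} (hP : IsKunneth P) (X : P.Obj) (k : ℕ) :
    P.dim (P.square k X) = 2 ^ k * P.dim X := by
  induction k generalizing X with
  | zero =>
    show P.dim X = 2 ^ 0 * P.dim X
    rw [pow_zero, one_mul]
  | succ k ih =>
    show P.dim (P.square k (P.prod X X)) = 2 ^ (k + 1) * P.dim X
    rw [ih, hP.dim_prod]
    ring

/-- the tensor `∑ (-1)^j N^j x ⊗ N^(m-j) x` is not zero -/
theorem tensor_ne {V : Type v} [AddCommGroup V] [Module F V] (N : V →ₗ[F] V) (x : V) (m : ℕ)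
    (h0 : (N ^ m) x ≠ 0) (h1 : (N ^ (m + 1)) x = 0) :
    (∑ j ∈ Finset.range (m + 1), (-1 : F) ^ j • ((N ^ j) x ⊗ₜ[F] (N ^ (m - j)) x)) ≠ 0 := by
  intro hz
  obtain ⟨f, hf⟩ := exists_dual (F := F) ((N ^ m) x) h0
  have h2 : ∀ j : ℕ, TensorProduct.lift ((LinearMap.mul F F).compl₁₂ (f.comp (N ^ m)) f)
      ((-1 : F) ^ j • ((N ^ j) x ⊗ₜ[F] (N ^ (m - j)) x)) =
      (-1 : F) ^ j • (f ((N ^ m) ((N ^ j) x)) * f ((N ^ (m - j)) x)) := by
    intro j
    rw [map_smul, TensorProduct.lift.tmul, LinearMap.compl₁₂_apply, LinearMap.mul_apply',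
      LinearMap.comp_apply]
  have h3 : ∀ j : ℕ, 1 ≤ j → (N ^ m) ((N ^ j) x) = 0 := by
    intro j hj
    obtain ⟨k, rfl⟩ := Nat.exists_eq_add_of_le hj
    have e : N ^ m * N ^ (1 + k) = N ^ k * N ^ (m + 1) := by
      rw [← pow_add, ← pow_add]
      congr 1
      omega
    rw [← Module.End.mul_apply, e, Module.End.mul_apply, h1, map_zero]
  have h4 := congrArg (TensorProduct.lift ((LinearMap.mul F F).compl₁₂ (f.comp (N ^ m)) f)) hz
  rw [map_zero, map_sum, Finset.sum_range_succ'] at h4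
  have h5 : (∑ j ∈ Finset.range m,
      TensorProduct.lift ((LinearMap.mul F F).compl₁₂ (f.comp (N ^ m)) f)
      ((-1 : F) ^ (j + 1) • ((N ^ (j + 1)) x ⊗ₜ[F] (N ^ (m - (j + 1))) x))) = 0 := by
    apply Finset.sum_eq_zero
    intro j _
    rw [h2, h3 (j + 1) (by omega), map_zero, zero_mul, smul_zero]
  rw [h5, zero_add, h2, pow_zero, one_smul, pow_zero, Module.End.one_apply, Nat.sub_zero] at h4
  exact mul_ne_zero hf hf h4

theorem double {P : ProductClass.{u, v} F} (hP : IsKunneth P) (X : P.Obj) (i : ℤ) (r : ℕ)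
    (hr : 1 ≤ r) (x : (P.H X i).V) (hx : x ∈ (P.H X i).wt (i + r)) (h0 : x ≠ 0)
    (hN : ((P.H X i).N ^ r) x = 0) :
    ∃ w : ℤ, 2 * (i + 1) ≤ w ∧ ∃ y ∈ (P.H (P.prod X X) (i + i)).wt w, y ≠ 0 ∧
      (P.H (P.prod X X) (i + i)).N y = 0 := by
  classical
  have hex : ∃ l : ℕ, ((P.H X i).N ^ l) x = 0 := ⟨r, hN⟩
  obtain ⟨m, hm0, hm1, hmr⟩ : ∃ m : ℕ, ((P.H X i).N ^ m) x ≠ 0 ∧
      ((P.H X i).N ^ (m + 1)) x = 0 ∧ m + 1 ≤ r := by
    have h1 := Nat.find_spec hex
    have h2 : Nat.find hex ≤ r := Nat.find_min' hex hN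
    have h3 : Nat.find hex ≠ 0 := by
      intro hc
      rw [hc, pow_zero, Module.End.one_apply] at h1
      exact h0 h1
    obtain ⟨m, hm⟩ := Nat.exists_eq_succ_of_ne_zero h3
    refine ⟨m, ?_, ?_, ?_⟩
    · exact Nat.find_min hex (by omega)
    · rw [hm] at h1
      exact h1
    · omega
  refine ⟨2 * (i + r) - 2 * m, by omega,
    ∑ j ∈ Finset.range (m + 1), (-1 : F) ^ j •
      P.cross X X i i (((P.H X i).N ^ j) x) (((P.H X i).N ^ (m - j)) x), ?_, ?_, ?_⟩
  · apply Submodule.sum_mem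
    intro j hj
    rw [Finset.mem_range] at hj
    apply Submodule.smul_mem
    have h1 := hP.cross_wt X X i i _ _ _ ((P.H X i).pow_mem_wt _ x hx j)
      _ ((P.H X i).pow_mem_wt _ x hx (m - j))
    have e : (i + (r : ℤ) - 2 * (j : ℤ)) + (i + (r : ℤ) - 2 * ((m - j : ℕ) : ℤ)) =
        2 * (i + r) - 2 * m := by omega
    rw [e] at h1
    exact h1
  · intro hc
    apply tensor_ne (P.H X i).N x m hm0 hm1
    apply hP.cross_inj X X i i
    rw [map_zero, map_sum, ← hc]
    apply Finset.sum_congr rfl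
    intro j _
    rw [map_smul, TensorProduct.lift.tmul]
  · have h1 : ∀ j ∈ Finset.range (m + 1), (P.H (P.prod X X) (i + i)).N ((-1 : F) ^ j •
        P.cross X X i i (((P.H X i).N ^ j) x) (((P.H X i).N ^ (m - j)) x)) =
        (-1 : F) ^ j •
          P.cross X X i i (((P.H X i).N ^ j) x) (((P.H X i).N ^ (m + 1 - j)) x) -
        (-1 : F) ^ (j + 1) •
          P.cross X X i i (((P.H X i).N ^ (j + 1)) x) (((P.H X i).N ^ (m + 1 - (j + 1))) x) := by
      intro j hj
      rw [Finset.mem_range] at hj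
      have e1 : m + 1 - j = (m - j) + 1 := by omega
      have e2 : m + 1 - (j + 1) = m - j := by omega
      rw [map_smul, hP.cross_N, e1, e2, pow_succ' (P.H X i).N j, pow_succ' (P.H X i).N (m - j),
        Module.End.mul_apply, Module.End.mul_apply, pow_succ (-1 : F) j, smul_add]
      rw [mul_neg, mul_one, neg_smul, sub_neg_eq_add]
      exact add_comm _ _
    rw [map_sum, Finset.sum_congr rfl h1, Finset.sum_range_sub', Nat.sub_zero, hm1, Nat.sub_self,
      map_zero, map_zero, LinearMap.zero_apply, smul_zero, smul_zero, sub_zero]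

end Pool.Agent.W543.WM
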