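import Pool.Agent.W543.WM.GalDefs

/-!
# Weight-monodromy and Galois invariants of weight `-1`: proofs
-/

universe u v

namespace Pool.Agent.W543.WM

variable {F : Type u} [Field F]

theorem noInvariants_of_pure {G : GaloisClass.{u, v} F} (hG : IsFrobenius G)
    (K : G.Fld) (X : (G.D K).Obj) (j : ℕ) (h : ((G.D K).H X (2 * j - 1)).Pure (2 * j - 1)) :
    G.NoInvariants K X (2 * j - 1) j := by
  intro x hN hx
  have h1 := hG.powWeight K X (2 * j - 1) j x hx
  refine (h 1).1 x ?_ (by rw [pow_one]; exact hN)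
  have e : (2 * j - 1 : ℤ) + ((1 : ℕ) : ℤ) = 2 * j := by push_cast; ring
  rw [e]
  exact h1

theorem exists_kernelEigen [IsAlgClosed F] {G : GaloisClass.{u, v} F} (hG : IsFrobenius G)
    (K : G.Fld) (X : (G.D K).Obj) (i w : ℤ) (x : ((G.D K).H X i).V)
    (hx : x ∈ ((G.D K).H X i).wt w) (h0 : x ≠ 0) (hN : ((G.D K).H X i).N x = 0) :
    ∃ α, G.KernelEigen K X i w α := by
  let W : Submodule F ((G.D K).H X i).V :=
    ((G.D K).H X i).wt w ⊓ LinearMap.ker ((G.D K).H X i).N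
  have hW : ∀ y ∈ W, G.frob K X i y ∈ W := by
    intro y hy
    refine ⟨hG.keeps K X i w y hy.1, ?_⟩
    have hy2 : ((G.D K).H X i).N y = 0 := hy.2
    show ((G.D K).H X i).N (G.frob K X i y) = 0
    rw [hG.commutes K X i y, hy2, map_zero, smul_zero]
  let f : W →ₗ[F] W := (G.frob K X i).restrict hW
  have : Nontrivial W := ⟨⟨⟨x, hx, hN⟩, 0, fun h => h0 (congrArg Subtype.val h)⟩⟩
  obtain ⟨α, hα⟩ := Module.End.exists_eigenvalue f
  obtain ⟨y, hy⟩ := hα.exists_hasEigenvector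
  refine ⟨α, y.1, y.2.1, fun h => hy.2 (Subtype.ext h), y.2.2, ?_⟩
  have h3 := hy.apply_eq_smul
  exact congrArg Subtype.val h3

theorem galois_invariants [CharZero F] [IsAlgClosed F] {G : GaloisClass.{u, v} F}
    (hD : ∀ K, IsGeometric (G.D K)) (hG : IsFrobenius G) (hT : HasTwists G) :
    (∀ K X i, ((G.D K).H X i).Pure i) ↔
      ∀ K X (j : ℕ), G.NoInvariants K X (2 * j - 1) j := by
  refine ⟨fun h K X j => noInvariants_of_pure hG K X j (h K X _), fun h K => ?_⟩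
  refine ((tfae_pure (hD K) 1 le_rfl).out 0 2).2 ?_
  intro X x hx hN
  by_contra h0
  obtain ⟨α, hα⟩ := exists_kernelEigen hG K X _ _ x hx h0 hN
  obtain ⟨K', Y, a, b, hab, hE⟩ := hT K X _ _ α hα
  have e : ((G.D K).dim X : ℤ) + a = 2 * b - 1 := by linarith
  rw [e] at hE
  obtain ⟨y, hy, hy0, hyN, hyF⟩ := hE
  exact hy0 (h K' Y b y hyN hyF)

end Pool.Agent.W543.WM
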