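import Pool.Agent.W543.WM.TateMain

/-!
# Weight-monodromy and Galois invariants of weight `-1`
-/

universe u v

namespace Pool.Agent.W543.WM

variable {F : Type u} [Field F]

/-- Linear operators on `M`. -/
abbrev WNModule.Op (M : WNModule.{u, v} F) : Type v := M.V →ₗ[F] M.V

/-- `f x = α x`. -/
def WNModule.Eigen (M : WNModule.{u, v} F) (f : M.Op) (α : F) (x : M.V) : Prop := f x = α • x

/-- `f` preserves the weight parts. -/
def WNModule.Keeps (M : WNModule.{u, v} F) (f : M.Op) : Prop := ∀ w, ∀ x ∈ M.wt w, f x ∈ M.wt w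

/-- `N f = q f N`. -/
def WNModule.Commutes (M : WNModule.{u, v} F) (q : ℕ) (f : M.Op) : Prop :=
  ∀ x, M.N (f x) = (q : F) • f (M.N x)

/-- An eigenvector of `f` of eigenvalue `q^j` has weight `2 j`. -/
def WNModule.PowWeight (M : WNModule.{u, v} F) (q : ℕ) (f : M.Op) : Prop :=
  ∀ (j : ℕ) x, M.Eigen f ((q : F) ^ j) x → x ∈ M.wt (2 * j)

/-- `α` is an eigenvalue of `f` on the elements of weight `w` killed by `N`. -/
def WNModule.KerEigen (M : WNModule.{u, v} F) (f : M.Op) (w : ℤ) (α : F) : Prop :=
  ∃ x ∈ M.wt w, x ≠ 0 ∧ M.N x = 0 ∧ M.Eigen f α x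

/-- No nonzero `x` is killed by `N` and satisfies `f x = α x`. -/
def WNModule.NoInv (M : WNModule.{u, v} F) (f : M.Op) (α : F) : Prop :=
  ∀ x, M.N x = 0 → M.Eigen f α x → x = 0

/-- Local fields with classes of varieties over them and Frobenius operators. -/
structure GaloisClass (F : Type u) [Field F] where
  /-- the local fields (finite extensions of a given one) -/
  Fld : Type v
  /-- cardinality of the residue field -/
  q : Fld → ℕ
  /-- the varieties over a field, with their cohomology -/
  D : Fld → Degenerations.{u, v} F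
  /-- geometric Frobenius -/
  frob : ∀ (K : Fld) (X : (D K).Obj) (i : ℤ), ((D K).H X i).Op

variable (G : GaloisClass.{u, v} F)

/-- `α` is an eigenvalue of Frobenius on the elements of weight `w` of `H^i(X)` killed by `N`. -/
def GaloisClass.KernelEigen (K : G.Fld) (X : (G.D K).Obj) (i w : ℤ) (α : F) : Prop :=
  ((G.D K).H X i).KerEigen (G.frob K X i) w α

/-- `H^0(G_K, H^i(X)(j)) = 0`: there is no nonzero `x` in `H^i(X)` which is killed by `N` and with
`Frob x = q^j x`. -/
def GaloisClass.NoInvariants (K : G.Fld) (X : (G.D K).Obj) (i : ℤ) (j : ℕ) : Prop :=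
  ((G.D K).H X i).NoInv (G.frob K X i) ((G.q K : F) ^ j)

/-- Frobenius preserves the weights, `N Frob = q Frob N`, and an eigenvector of eigenvalue `q^j`
has weight `2 j`. -/
structure IsFrobenius : Prop where
  keeps : ∀ K X i, ((G.D K).H X i).Keeps (G.frob K X i)
  commutes : ∀ K X i, ((G.D K).H X i).Commutes (G.q K) (G.frob K X i)
  powWeight : ∀ K X i, ((G.D K).H X i).PowWeight (G.q K) (G.frob K X i)

/-- Twisting by abelian varieties with good reduction (Honda-Tate): if `α` is an eigenvalue of
Frobenius on the elements of weight `w` of `H^i(X)` killed by `N`, then for some finite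
extension `K'`, of residue degree `s`, and some abelian variety `A` over `K'` with good reduction,
there are `a` and `b` with `w + a = 2 b` and an eigenvalue `β` of Frobenius on `H^a(A)` with
`α^s β = q'^b`, where `q' = q^s`; so `q'^b` is an eigenvalue on the elements of `H^{i+a}` of
`Y = X_{K'} × A` killed by `N`. -/
def HasTwists : Prop := ∀ (K : G.Fld) (X : (G.D K).Obj) (i w : ℤ) (α : F),
  G.KernelEigen K X i w α → ∃ (K' : G.Fld) (Y : (G.D K').Obj) (a : ℤ) (b : ℕ),
    w + a = 2 * b ∧ G.KernelEigen K' Y (i + a) (2 * b) ((G.q K' : F) ^ b)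

end Pool.Agent.W543.WM
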