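import Pool.Agent.W543.WM.Defs

/-!
# Weight-monodromy: classes of varieties stable under products
-/

universe u v

namespace Pool.Agent.W543.WM

variable {F : Type u} [Field F]

/-- Bilinear maps `M × M' → M''`. -/
abbrev Bilin (M M' M'' : WNModule.{u, v} F) : Type v := M.V →ₗ[F] M'.V →ₗ[F] M''.V

/-- The value of a bilinear map. -/
def Bilin.app {M M' M'' : WNModule.{u, v} F} (c : Bilin M M' M'') (x : M.V) (y : M'.V) : M''.V :=
  c x y

/-- `M ⊗ M' → M''` is injective. -/
def Bilin.Inj {M M' M'' : WNModule.{u, v} F} (c : Bilin M M' M'') : Prop :=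
  Function.Injective (TensorProduct.lift c)

/-- `N` is a derivation. -/
def Bilin.Deriv {M M' M'' : WNModule.{u, v} F} (c : Bilin M M' M'') : Prop :=
  ∀ x y, M''.N (c.app x y) = c.app (M.N x) y + c.app x (M'.N y)

/-- Weights add. -/
def Bilin.Weights {M M' M'' : WNModule.{u, v} F} (c : Bilin M M' M'') : Prop :=
  ∀ a b : ℤ, ∀ x ∈ M.wt a, ∀ y ∈ M'.wt b, c.app x y ∈ M''.wt (a + b)

/-- A class of varieties over a local field, stable under products, with cohomology and exterior
products. -/
structure ProductClass (F : Type u) [Field F] where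
  Obj : Type v
  /-- dimension -/
  dim : Obj → ℕ
  /-- `H^i` of the geometric generic fibre -/
  H : Obj → ℤ → WNModule.{u, v} F
  /-- the product of two varieties -/
  prod : Obj → Obj → Obj
  /-- the exterior product `H^i(X) × H^j(Y) → H^{i+j}(X × Y)` -/
  cross : ∀ (X Y : Obj) (i j : ℤ), Bilin (H X i) (H Y j) (H (prod X Y) (i + j))

/-- Standard properties. -/
structure IsKunneth (P : ProductClass.{u, v} F) : Prop where
  dim_prod : ∀ X Y, P.dim (P.prod X Y) = P.dim X + P.dim Y
  /-- the parts of `H^i` of weight `i + r` and `i - r` have the same dimension (Poincaré duality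
  and the hard Lefschetz theorem) -/
  symm : ∀ X i, (P.H X i).Symm i
  /-- Künneth formula: `H^i(X) ⊗ H^j(Y) → H^{i+j}(X × Y)` is injective -/
  inj : ∀ X Y i j, (P.cross X Y i j).Inj
  /-- `N` is a derivation -/
  deriv : ∀ X Y i j, (P.cross X Y i j).Deriv
  /-- weights add -/
  weights : ∀ X Y i j, (P.cross X Y i j).Weights

theorem IsKunneth.cross_inj {P : ProductClass.{u, v} F} (hP : IsKunneth P) (X Y : P.Obj)
    (i j : ℤ) : Function.Injective (TensorProduct.lift (P.cross X Y i j)) := hP.inj X Y i j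

theorem IsKunneth.cross_N {P : ProductClass.{u, v} F} (hP : IsKunneth P) (X Y : P.Obj)
    (i j : ℤ) (x : (P.H X i).V) (y : (P.H Y j).V) :
    (P.H (P.prod X Y) (i + j)).N (P.cross X Y i j x y) =
      P.cross X Y i j ((P.H X i).N x) y + P.cross X Y i j x ((P.H Y j).N y) :=
  hP.deriv X Y i j x y

theorem IsKunneth.cross_wt {P : ProductClass.{u, v} F} (hP : IsKunneth P) (X Y : P.Obj)
    (i j a b : ℤ) : ∀ x ∈ (P.H X i).wt a, ∀ y ∈ (P.H Y j).wt b,
    P.cross X Y i j x y ∈ (P.H (P.prod X Y) (i + j)).wt (a + b) :=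
  hP.weights X Y i j a b

/-- `w` is a weight of the kernel of `N` on `H^i(X)`. -/
def KernelWeight (P : ProductClass.{u, v} F) (X : P.Obj) (i w : ℤ) : Prop :=
  ∃ x ∈ (P.H X i).wt w, x ≠ 0 ∧ (P.H X i).N x = 0

/-- `X ↦ X × X`, iterated `k` times: the power `X^{2^k}`. -/
def ProductClass.square (P : ProductClass.{u, v} F) : ℕ → P.Obj → P.Obj
  | 0, X => X
  | k + 1, X => P.square k (P.prod X X)

end Pool.Agent.W543.WM
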