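import Pool.Agent.W543.WM.ProdDefs

/-!
# Statements of the parts (asymptotic criterion)
-/

universe u v

namespace Pool.Agent.W543.WM

/-- STATEMENT `S_asym`: the asymptotic criterion. -/
def S_asym : Prop := ∀ (F : Type u) [Field F] (P : ProductClass.{u, v} F), IsKunneth P →
  ((∀ X i, (P.H X i).Pure i) ↔
    ∀ ε : ℝ, 0 < ε → ∃ C : ℝ, ∀ X (i w : ℤ), KernelWeight P X i w →
      (w : ℝ) ≤ i + ε * P.dim X + C) ∧
  ∀ (X : P.Obj) (i : ℤ), (∃ k : ℕ, 1 ≤ k ∧ ∀ w : ℤ,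
      KernelWeight P (P.square k X) (2 ^ k * i) w → w < 2 ^ k * (i + 1)) → (P.H X i).Pure i

end Pool.Agent.W543.WM
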