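import Pool.Agent.W543.WM.Defs

/-!
# The Tate curve trick
-/

universe u v w

namespace Pool.Agent.W543.WM

variable {F : Type u} [Field F]

/-- `N ^ r` is a bijection from `S` to `S'`. -/
def BijOn {V : Type v} [AddCommGroup V] [Module F V] (N : V →ₗ[F] V) (r : ℕ)
    (S S' : Submodule F V) : Prop :=
  (∀ x ∈ S, (N ^ r) x = 0 → x = 0) ∧ ∀ y ∈ S', ∃ x ∈ S, (N ^ r) x = y

theorem pow_prodMap {V : Type v} [AddCommGroup V] [Module F V] {W : Type w} [AddCommGroup W]
    [Module F W] (N : V →ₗ[F] V) (N' : W →ₗ[F] W) (r : ℕ) (x : V × W) :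
    ((LinearMap.prodMap N N') ^ r) x = ((N ^ r) x.1, (N' ^ r) x.2) := by
  induction r generalizing x with
  | zero => simp
  | succ r ih => rw [pow_succ, Module.End.mul_apply, ih]; simp [pow_succ, Module.End.mul_apply]

theorem bijOn_prod {V : Type v} [AddCommGroup V] [Module F V] {W : Type w} [AddCommGroup W]
    [Module F W] (N : V →ₗ[F] V) (N' : W →ₗ[F] W) (r : ℕ) (S S' : Submodule F V)
    (T T' : Submodule F W) :
    BijOn (LinearMap.prodMap N N') r (S.prod T) (S'.prod T') ↔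
      BijOn N r S S' ∧ BijOn N' r T T' := by
  constructor
  · rintro ⟨h1, h2⟩
    refine ⟨⟨fun x hx hx0 => ?_, fun y hy => ?_⟩, ⟨fun x hx hx0 => ?_, fun y hy => ?_⟩⟩
    · have := h1 (x, 0) ⟨hx, T.zero_mem⟩ (by rw [pow_prodMap]; simp [hx0])
      exact (Prod.ext_iff.1 this).1
    · obtain ⟨x, hx, hxy⟩ := h2 (y, 0) ⟨hy, T'.zero_mem⟩
      rw [pow_prodMap] at hxy
      exact ⟨x.1, hx.1, (Prod.ext_iff.1 hxy).1⟩
    · have := h1 (0, x) ⟨S.zero_mem, hx⟩ (by rw [pow_prodMap]; simp [hx0])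
      exact (Prod.ext_iff.1 this).2
    · obtain ⟨x, hx, hxy⟩ := h2 (0, y) ⟨S'.zero_mem, hy⟩
      rw [pow_prodMap] at hxy
      exact ⟨x.2, hx.2, (Prod.ext_iff.1 hxy).2⟩
  · rintro ⟨⟨h1, h2⟩, ⟨h3, h4⟩⟩
    refine ⟨fun x hx hx0 => ?_, fun y hy => ?_⟩
    · rw [pow_prodMap] at hx0
      exact Prod.ext (h1 _ hx.1 (Prod.ext_iff.1 hx0).1) (h3 _ hx.2 (Prod.ext_iff.1 hx0).2)
    · obtain ⟨a, ha, ha'⟩ := h2 _ hy.1
      obtain ⟨b, hb, hb'⟩ := h4 _ hy.2
      exact ⟨(a, b), ⟨ha, hb⟩, by rw [pow_prodMap]; exact Prod.ext ha' hb'⟩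

theorem bijOn_equiv {V : Type v} [AddCommGroup V] [Module F V] {W : Type w} [AddCommGroup W]
    [Module F W] (N : V →ₗ[F] V) (N' : W →ₗ[F] W) (e : V ≃ₗ[F] W) (he : ∀ x, e (N x) = N' (e x))
    (r : ℕ) (S S' : Submodule F V) (T T' : Submodule F W) (hS : ∀ x, x ∈ S ↔ e x ∈ T)
    (hS' : ∀ x, x ∈ S' ↔ e x ∈ T') : BijOn N r S S' ↔ BijOn N' r T T' := by
  have hp : ∀ (r : ℕ) x, e ((N ^ r) x) = (N' ^ r) (e x) := by
    intro r
    induction r with
    | zero => intro x; simp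
    | succ r ih => intro x; rw [pow_succ, pow_succ, Module.End.mul_apply, Module.End.mul_apply,
        ih, he]
  constructor
  · rintro ⟨h1, h2⟩
    refine ⟨fun y hy hy0 => ?_, fun y hy => ?_⟩
    · have := h1 (e.symm y) ((hS _).2 (by simpa using hy))
        (e.injective (by rw [hp]; simpa using hy0))
      simpa using this
    · obtain ⟨x, hx, hxy⟩ := h2 (e.symm y) ((hS' _).2 (by simpa using hy))
      exact ⟨e x, (hS x).1 hx, by rw [← hp, hxy]; simp⟩
  · rintro ⟨h1, h2⟩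
    refine ⟨fun x hx hx0 => ?_, fun y hy => ?_⟩
    · have := h1 (e x) ((hS _).1 hx) (by rw [← hp, hx0]; simp)
      simpa using this
    · obtain ⟨x, hx, hxy⟩ := h2 (e y) ((hS' _).1 hy)
      exact ⟨e.symm x, (hS _).2 (by simpa using hx), e.injective (by rw [hp]; simpa using hxy)⟩

theorem WNModule.pow_mem (M : WNModule.{u, v} F) (r : ℕ) (w : ℤ) (x : M.V) (hx : x ∈ M.wt w) :
    (M.N ^ r) x ∈ M.wt (w - 2 * r) := by
  induction r generalizing x w with
  | zero => simpa using hx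
  | succ r ih =>
    rw [pow_succ, Module.End.mul_apply]
    have := ih (w - 2) (M.N x) (M.N_mem w x hx)
    have h : w - 2 - 2 * (r : ℤ) = w - 2 * ((r + 1 : ℕ) : ℤ) := by push_cast; ring
    rwa [h] at this

/-- injectivity is enough if the dimensions are the same -/
theorem WNModule.bij_of_inj (M : WNModule.{u, v} F) (i : ℤ) (r : ℕ)
    (hs : Module.finrank F (M.wt (i + r)) = Module.finrank F (M.wt (i - r)))
    (h : ∀ x ∈ M.wt (i + r), (M.N ^ r) x = 0 → x = 0) : M.Bij i r := by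
  refine ⟨h, ?_⟩
  have hmap : ∀ x ∈ M.wt (i + r), (M.N ^ r) x ∈ M.wt (i - r) := by
    intro x hx
    have := M.pow_mem r (i + r) x hx
    have h : i + (r : ℤ) - 2 * r = i - r := by ring
    rwa [h] at this
  let f : M.wt (i + r) →ₗ[F] M.wt (i - r) := (M.N ^ r).restrict hmap
  have hf : Function.Injective f := by
    rw [← LinearMap.ker_eq_bot, LinearMap.ker_eq_bot']
    intro x hx
    have : (M.N ^ r) (x : M.V) = 0 := by
      have := congrArg Subtype.val hx
      simpa [f] using this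
    exact Subtype.ext (h x x.2 this)
  have hsurj := (LinearMap.injective_iff_surjective_of_finrank_eq_finrank hs).1 hf
  intro y hy
  obtain ⟨x, hx⟩ := hsurj ⟨y, hy⟩
  exact ⟨x, x.2, by simpa [f] using congrArg Subtype.val hx⟩

@[simp] theorem tateN_apply (M : WNModule.{u, v} F) (x : M.V × M.V) :
    tateN M x = (M.N x.1 + x.2, M.N x.2) := rfl

theorem tateN_pow (M : WNModule.{u, v} F) (s : ℕ) (x : M.V × M.V) :
    ((tateN M) ^ (s + 1)) x =
      ((M.N ^ (s + 1)) x.1 + ((s + 1 : ℕ) : F) • (M.N ^ s) x.2, (M.N ^ (s + 1)) x.2) := by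
  induction s generalizing x with
  | zero => simp
  | succ s ih =>
    rw [pow_succ, Module.End.mul_apply, ih, tateN_apply]
    simp only [map_add]
    have h1 : (M.N ^ (s + 1)) (M.N x.1) = (M.N ^ (s + 1 + 1)) x.1 := by
      rw [pow_succ _ (s + 1), Module.End.mul_apply]
    have h2 : (M.N ^ s) (M.N x.2) = (M.N ^ (s + 1)) x.2 := by
      rw [pow_succ _ s, Module.End.mul_apply]
    have h3 : (M.N ^ (s + 1)) (M.N x.2) = (M.N ^ (s + 1 + 1)) x.2 := by
      rw [pow_succ _ (s + 1), Module.End.mul_apply]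
    rw [h1, h2, h3]
    refine Prod.ext ?_ rfl
    simp only [Nat.cast_add, Nat.cast_one, add_smul, one_smul]
    abel

variable [CharZero F]

/-- The key: for `r = s + 1 ≥ 1`, `N ^ r` on `M ⊗ H^1(E)` (centre `j + 1`) is bijective iff
`N ^ (r + 1)` and `N ^ (r - 1)` are bijective on `M` (centre `j`). -/
theorem tate_key (M : WNModule.{u, v} F) (j : ℤ) (s : ℕ) :
    BijOn (tateN M) (s + 1) ((M.wt (j + (s + 2 : ℕ))).prod (M.wt (j + s)))
        ((M.wt (j - s)).prod (M.wt (j - (s + 2 : ℕ)))) ↔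
      M.Bij j (s + 2) ∧ M.Bij j s := by
  have hc : ((s + 1 : ℕ) : F) ≠ 0 := by exact_mod_cast Nat.succ_ne_zero s
  set c : F := ((s + 1 : ℕ) : F) with hcdef
  have hN : ∀ b ∈ M.wt (j + (s + 2 : ℕ)), M.N b ∈ M.wt (j + s) := by
    intro b hb
    have := M.N_mem _ b hb
    have h : j + ((s + 2 : ℕ) : ℤ) - 2 = j + s := by push_cast; ring
    rwa [h] at this
  have hN' : ∀ b ∈ M.wt (j - s), M.N b ∈ M.wt (j - (s + 2 : ℕ)) := by
    intro b hb
    have := M.N_mem _ b hb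
    have h : j - (s : ℤ) - 2 = j - ((s + 2 : ℕ) : ℤ) := by push_cast; ring
    rwa [h] at this
  have e1 : ∀ x, (M.N ^ s) (M.N x) = (M.N ^ (s + 1)) x := fun x => by
    rw [pow_succ, Module.End.mul_apply]
  have e2 : ∀ x, (M.N ^ (s + 1)) (M.N x) = (M.N ^ (s + 2)) x := fun x => by
    rw [pow_succ _ (s + 1), Module.End.mul_apply]
  have e3 : ∀ x, M.N ((M.N ^ s) x) = (M.N ^ (s + 1)) x := fun x => by
    rw [pow_succ', Module.End.mul_apply]
  constructor
  · rintro ⟨h1, h2⟩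
    refine ⟨⟨fun b hb hb0 => ?_, fun z hz => ?_⟩, ⟨fun x hx hx0 => ?_, fun y hy => ?_⟩⟩
    · have hmem : (b, -(c⁻¹ • M.N b)) ∈ (M.wt (j + (s + 2 : ℕ))).prod (M.wt (j + s)) :=
        ⟨hb, Submodule.neg_mem _ (Submodule.smul_mem _ _ (hN b hb))⟩
      have := h1 _ hmem (by
        rw [tateN_pow]
        simp only [map_neg, map_smul, smul_neg, e1, e2, hb0, smul_zero, neg_zero]
        rw [← hcdef, smul_inv_smul₀ hc]
        simp)
      exact (Prod.ext_iff.1 this).1
    · obtain ⟨⟨b, x⟩, ⟨hb, hx⟩, hbx⟩ := h2 (0, z) ⟨Submodule.zero_mem _, hz⟩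
      rw [tateN_pow] at hbx
      obtain ⟨hA, hB⟩ := Prod.ext_iff.1 hbx
      simp only at hA hB
      refine ⟨-(c⁻¹ • b), Submodule.neg_mem _ (Submodule.smul_mem _ _ hb), ?_⟩
      have hA' := congrArg M.N hA
      simp only [map_add, map_smul, map_zero, e3] at hA'
      have e4 : M.N ((M.N ^ (s + 1)) b) = (M.N ^ (s + 2)) b := by
        rw [pow_succ' _ (s + 1), Module.End.mul_apply]
      rw [e4, hB, ← hcdef] at hA'
      rw [map_neg, map_smul]
      have : (M.N ^ (s + 2)) b = -(c • z) := eq_neg_of_add_eq_zero_left hA'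
      rw [this, smul_neg, inv_smul_smul₀ hc, neg_neg]
    · have := h1 (0, x) ⟨Submodule.zero_mem _, hx⟩ (by
        rw [tateN_pow]
        have : (M.N ^ (s + 1)) x = 0 := by rw [← e3, hx0, map_zero]
        simp [hx0, this])
      exact (Prod.ext_iff.1 this).2
    · obtain ⟨⟨b, x⟩, ⟨hb, hx⟩, hbx⟩ := h2 (y, 0) ⟨hy, Submodule.zero_mem _⟩
      rw [tateN_pow] at hbx
      obtain ⟨hA, hB⟩ := Prod.ext_iff.1 hbx
      simp only at hA hB
      refine ⟨M.N b + c • x, Submodule.add_mem _ (hN b hb) (Submodule.smul_mem _ _ hx), ?_⟩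
      rw [map_add, map_smul, e1]
      exact hA
  · rintro ⟨⟨h1, h2⟩, ⟨h3, h4⟩⟩
    refine ⟨?_, ?_⟩
    · rintro ⟨b, x⟩ ⟨hb, hx⟩ h0
      rw [tateN_pow] at h0
      obtain ⟨hA, hB⟩ := Prod.ext_iff.1 h0
      simp only [Prod.fst_zero, Prod.snd_zero] at hA hB hb hx
      have hc' : M.N b + c • x = 0 := h3 _
        (Submodule.add_mem _ (hN b hb) (Submodule.smul_mem _ _ hx)) (by
          rw [map_add, map_smul, e1]; exact hA)
      have hb0 : b = 0 := by
        refine h1 b hb ?_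
        have := congrArg (M.N ^ (s + 1)) hc'
        rw [map_add, map_smul, hB, e2, smul_zero, add_zero, map_zero] at this
        exact this
      subst hb0
      rw [map_zero, zero_add] at hc'
      have hx0 : x = 0 := (smul_eq_zero.1 hc').resolve_left hc
      rw [hx0]; rfl
    · rintro ⟨y, z⟩ ⟨hy, hz⟩
      simp only at hy hz
      obtain ⟨x', hx', hxy⟩ := h4 y hy
      obtain ⟨b, hb, hbz⟩ := h2 (M.N y - c • z)
        (Submodule.sub_mem _ (hN' y hy) (Submodule.smul_mem _ _ hz))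
      refine ⟨(b, c⁻¹ • (x' - M.N b)), ⟨hb, Submodule.smul_mem _ _
        (Submodule.sub_mem _ hx' (hN b hb))⟩, ?_⟩
      rw [tateN_pow]
      refine Prod.ext ?_ ?_
      · simp only [map_smul, map_sub, e1, hxy]
        rw [← hcdef, smul_inv_smul₀ hc]
        abel
      · simp only [map_smul, map_sub, e2, hbz]
        have : (M.N ^ (s + 1)) x' = M.N y := by rw [← e3, hxy]
        rw [this, sub_sub_cancel, inv_smul_smul₀ hc]

end Pool.Agent.W543.WM
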