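import Pool.Agent.W543.WM.Tate

/-!
# Reduction of the monodromy-weight conjecture to `N : gr_{i+1} → gr_{i-1}`
-/

universe u v w

namespace Pool.Agent.W543.WM

variable {F : Type u} [Field F]

theorem WNModule.bij_iff (M : WNModule.{u, v} F) (i : ℤ) (r : ℕ) :
    M.Bij i r ↔ BijOn M.N r (M.wt (i + r)) (M.wt (i - r)) := Iff.rfl

theorem WNModule.bij_zero (M : WNModule.{u, v} F) (i : ℤ) : M.Bij i 0 := by
  refine ⟨fun x _ h => by simpa using h, fun y hy => ⟨y, by simpa using hy, by simp⟩⟩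

theorem WNModule.bij_of_bot (M : WNModule.{u, v} F) (i : ℤ) (r : ℕ) (h1 : M.wt (i + r) = ⊥)
    (h2 : M.wt (i - r) = ⊥) : M.Bij i r := by
  refine ⟨fun x hx _ => by rw [h1] at hx; simpa using hx, fun y hy => ⟨0, by simp, ?_⟩⟩
  rw [h2] at hy
  rw [map_zero, (Submodule.mem_bot F).1 hy]

theorem WNModule.noKernel_of_bij (M : WNModule.{u, v} F) (i : ℤ) (h : M.Bij i 1) :
    M.NoKernel (i + 1) := fun x hx hx0 => h.1 x (by simpa using hx) (by simpa using hx0)

variable {D : Degenerations.{u, v} F}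

theorem bij_one_of_noKernel (hD : IsGeometric D) (X : D.Obj) (i : ℤ)
    (h : (D.H X i).NoKernel (i + 1)) : (D.H X i).Bij i 1 :=
  (D.H X i).bij_of_inj i 1 (hD.symm X i 1) fun x hx hx0 =>
    h x (by simpa using hx) (by simpa using hx0)

theorem bij_iso {M M' : WNModule.{u, v} F} (h : M.Iso M') (i : ℤ) (r : ℕ) :
    M.Bij i r ↔ M'.Bij i r := by
  obtain ⟨e, he, hw⟩ := h
  exact bijOn_equiv M.N M'.N e he r _ _ _ _ (hw _) (hw _)

theorem bij_prod (M M' : WNModule.{u, v} F) (i : ℤ) (r : ℕ) :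
    (M.prod M').Bij i r ↔ M.Bij i r ∧ M'.Bij i r :=
  bijOn_prod M.N M'.N r _ _ _ _

theorem bij_twist (M : WNModule.{u, v} F) (k : ℕ) (i : ℤ) (r : ℕ) :
    (M.twist k).Bij i r ↔ M.Bij (i - 2 * k) r := by
  have h1 : i + (r : ℤ) - 2 * k = i - 2 * k + r := by ring
  have h2 : i - (r : ℤ) - 2 * k = i - 2 * k - r := by ring
  change BijOn M.N r (M.wt (i + r - 2 * k)) (M.wt (i - r - 2 * k)) ↔ _
  rw [h1, h2]
  rfl

theorem bij_tateMod [CharZero F] (M : WNModule.{u, v} F) (i : ℤ) (s : ℕ) :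
    M.tate.Bij i (s + 1) ↔ M.Bij (i - 1) (s + 2) ∧ M.Bij (i - 1) s := by
  have h1 : i + ((s + 1 : ℕ) : ℤ) = i - 1 + ((s + 2 : ℕ) : ℤ) := by push_cast; ring
  have h2 : i - 1 + ((s + 2 : ℕ) : ℤ) - 2 = i - 1 + (s : ℤ) := by push_cast; ring
  have h3 : i - ((s + 1 : ℕ) : ℤ) = i - 1 - (s : ℤ) := by push_cast; ring
  have h4 : i - 1 - (s : ℤ) - 2 = i - 1 - ((s + 2 : ℕ) : ℤ) := by push_cast; ring
  change BijOn (tateN M) (s + 1)
    ((M.wt (i + (s + 1 : ℕ))).prod (M.wt (i + (s + 1 : ℕ) - 2)))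
    ((M.wt (i - (s + 1 : ℕ))).prod (M.wt (i - (s + 1 : ℕ) - 2))) ↔ _
  rw [h1, h2, h3, h4]
  exact tate_key M (i - 1) s

theorem bij_tate [CharZero F] (hD : IsGeometric D) (X : D.Obj) (i : ℤ) (s : ℕ) :
    (D.H (D.timesTate X) i).Bij i (s + 1) ↔ (D.H X i).Bij i (s + 1) ∧
      ((D.H X (i - 1)).Bij (i - 1) (s + 2) ∧ (D.H X (i - 1)).Bij (i - 1) s) ∧
        (D.H X (i - 2)).Bij (i - 2) (s + 1) := by
  rw [bij_iso (hD.tate X i), bij_prod, bij_prod, bij_tateMod, bij_twist]
  have h : i - 2 * ((1 : ℕ) : ℤ) = i - 2 := by push_cast; ring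
  rw [h]

theorem pure_tate [CharZero F] (hD : IsGeometric D) (X : D.Obj)
    (h : ∀ i, (D.H X i).Pure i) (i : ℤ) : (D.H (D.timesTate X) i).Pure i := by
  intro r
  rcases r with _ | s
  · exact WNModule.bij_zero _ _
  · exact (bij_tate hD X i s).2 ⟨h i _, ⟨h _ _, h _ _⟩, h _ _⟩

theorem pure_iterate [CharZero F] (hD : IsGeometric D) (m : ℕ) (X : D.Obj)
    (h : ∀ i, (D.H X i).Pure i) (i : ℤ) : (D.H (D.timesTate^[m] X) i).Pure i := by
  induction m generalizing X i with
  | zero => exact h i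
  | succ m ih => exact ih (D.timesTate X) (pure_tate hD X h) i

theorem bij_descend [CharZero F] (hD : IsGeometric D) (m : ℕ) (X : D.Obj)
    (h : ∀ i, (D.H (D.timesTate^[m] X) i).Bij i 1) (i : ℤ) : (D.H X i).Bij i (m + 1) := by
  induction m generalizing X i with
  | zero => exact h i
  | succ m ih =>
    have h1 := ih (D.timesTate X) h (i + 1)
    have h2 := ((bij_tate hD X (i + 1) m).1 h1).2.1.1
    simpa using h2

theorem pure_iff [CharZero F] (hD : IsGeometric D) (X : D.Obj) :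
    (∀ i, (D.H X i).Pure i) ↔
      ∀ m < D.dim X, ∀ i : ℤ, (D.H (D.timesTate^[m] X) i).NoKernel (i + 1) := by
  constructor
  · intro h m _ i
    exact WNModule.noKernel_of_bij _ _ (pure_iterate hD m X h i 1)
  · intro h i r
    rcases r with _ | m
    · exact WNModule.bij_zero _ _
    · by_cases hm : m < D.dim X
      · exact bij_descend hD m X (fun i => bij_one_of_noKernel hD _ i (h m hm i)) i
      · have hm' : (D.dim X : ℤ) ≤ m := by exact_mod_cast Nat.le_of_not_lt hm
        refine WNModule.bij_of_bot _ _ _ (hD.weights X i _ (Or.inr ?_))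
          (hD.weights X i _ (Or.inl ?_)) <;> push_cast <;> linarith

theorem noKernel_iso {M M' : WNModule.{u, v} F} (h : M.Iso M') (w : ℤ) :
    M.NoKernel w ↔ M'.NoKernel w := by
  obtain ⟨e, he, hw⟩ := h
  constructor
  · intro h1 x hx hx0
    have := h1 (e.symm x) ((hw _ _).2 (by simpa using hx))
      (e.injective (by rw [he]; simpa using hx0))
    simpa using this
  · intro h1 x hx hx0
    have := h1 (e x) ((hw _ _).1 hx) (by rw [← he, hx0, map_zero])
    simpa using this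

theorem noKernel_line (hD : IsGeometric D) (X : D.Obj) (i w : ℤ)
    (h : (D.H (D.timesLine X) (i + 2)).NoKernel (w + 2)) : (D.H X i).NoKernel w := by
  rw [noKernel_iso (hD.line X (i + 2))] at h
  have key : (D.H X (i + 2 - 2)).NoKernel (w + 2 - 2 * ((1 : ℕ) : ℤ)) := by
    intro x hx hx0
    have h0 : ((D.H X (i + 2)).prod ((D.H X (i + 2 - 2)).twist 1)).N
        ((0 : (D.H X (i + 2)).V), x) = 0 :=
      Prod.ext (show (D.H X (i + 2)).N 0 = 0 from map_zero _)
        (show (D.H X (i + 2 - 2)).N x = 0 from hx0)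
    have h1 := h ((0 : (D.H X (i + 2)).V), x) ⟨Submodule.zero_mem _, hx⟩ h0
    exact (Prod.ext_iff.1 h1).2
  have h1 : i + 2 - 2 = i := by ring
  have h2 : w + 2 - 2 * ((1 : ℕ) : ℤ) = w := by push_cast; ring
  rw [h2] at key
  rw [h1] at key
  exact key

theorem noKernel_lines (hD : IsGeometric D) (k : ℕ) (X : D.Obj) (i w : ℤ)
    (h : (D.H (D.timesLine^[k] X) (i + 2 * k)).NoKernel (w + 2 * k)) :
    (D.H X i).NoKernel w := by
  induction k generalizing X i w with
  | zero => simpa using h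
  | succ k ih =>
    refine noKernel_line hD X i w (ih (D.timesLine X) (i + 2) (w + 2) ?_)
    have h1 : i + 2 + 2 * (k : ℤ) = i + 2 * ((k + 1 : ℕ) : ℤ) := by push_cast; ring
    have h2 : w + 2 + 2 * (k : ℤ) = w + 2 * ((k + 1 : ℕ) : ℤ) := by push_cast; ring
    rw [h1, h2]
    exact h

theorem dim_lines (hD : IsGeometric D) (k : ℕ) (X : D.Obj) :
    D.dim (D.timesLine^[k] X) = D.dim X + k := by
  induction k generalizing X with
  | zero => rfl
  | succ k ih =>
    rw [Function.iterate_succ_apply, ih, hD.dim_line]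
    ring

theorem noKernel_of_middle (hD : IsGeometric D)
    (h : ∀ X, (D.H X (D.dim X)).NoKernel (D.dim X + 1)) (X : D.Obj) (i : ℤ) :
    (D.H X i).NoKernel (i + 1) := by
  have hle : ∀ k : ℕ, (D.H X (D.dim X - k)).NoKernel (D.dim X - k + 1) := by
    intro k
    refine noKernel_lines hD k X _ _ ?_
    have h1 := h (D.timesLine^[k] X)
    rw [dim_lines hD] at h1
    have h2 : (D.dim X : ℤ) - k + 2 * k = ((D.dim X + k : ℕ) : ℤ) := by push_cast; ring
    have h3 : (D.dim X : ℤ) - k + 1 + 2 * k = ((D.dim X + k : ℕ) : ℤ) + 1 := by push_cast; ring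
    rw [h2, h3]
    exact h1
  rcases le_total i (D.dim X) with hi | hi
  · obtain ⟨k, hk⟩ := Int.eq_ofNat_of_zero_le (sub_nonneg.2 hi)
    have h1 := hle k
    have h2 : (D.dim X : ℤ) - k = i := by rw [← hk]; ring
    rw [h2] at h1
    exact h1
  · obtain ⟨k, hk⟩ := Int.eq_ofNat_of_zero_le (sub_nonneg.2 hi)
    have h2 : i = (D.dim X : ℤ) + k := by rw [← hk]; ring
    subst h2
    rw [← noKernel_iso (hD.lefschetz X k)]
    intro x hx hx0
    have h3 : (D.dim X : ℤ) + k + 1 - 2 * k = D.dim X - k + 1 := by ring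
    have hx' : x ∈ (D.H X (D.dim X - k)).wt (D.dim X + k + 1 - 2 * k) := hx
    rw [h3] at hx'
    exact hle k x hx' hx0

theorem tfae_pure [CharZero F] (hD : IsGeometric D) (r : ℕ) (hr : 1 ≤ r) :
    [∀ X i, (D.H X i).Pure i,
      ∀ X i, (D.H X i).Bij i r,
      ∀ X, (D.H X (D.dim X)).NoKernel (D.dim X + 1)].TFAE := by
  tfae_have 1 → 2 := fun h X i => h X i r
  tfae_have 1 → 3 := fun h X => WNModule.noKernel_of_bij _ _ (h X _ 1)
  tfae_have 3 → 1 := fun h X =>
    (pure_iff hD X).2 fun m _ i => noKernel_of_middle hD h _ i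
  tfae_have 2 → 1 := by
    intro h
    have step : ∀ s : ℕ, (∀ X i, (D.H X i).Bij i (s + 1)) →
        (∀ X i, (D.H X i).Bij i (s + 2)) ∧ ∀ X i, (D.H X i).Bij i s := by
      intro s hs
      refine ⟨fun X i => ?_, fun X i => ?_⟩
      · have := ((bij_tate hD X (i + 1) s).1 (hs _ _)).2.1.1
        simpa using this
      · have := ((bij_tate hD X (i + 1) s).1 (hs _ _)).2.1.2
        simpa using this
    have down : ∀ s : ℕ, (∀ X i, (D.H X i).Bij i (s + 1)) → ∀ X i, (D.H X i).Bij i 1 := by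
      intro s
      induction s with
      | zero => exact id
      | succ s ih => exact fun hs => ih (step (s + 1) hs).2
    obtain ⟨s, rfl⟩ : ∃ s, r = s + 1 := ⟨r - 1, by omega⟩
    have h1 := down s h
    have up : ∀ t : ℕ, ∀ X i, (D.H X i).Bij i (t + 1) := by
      intro t
      induction t with
      | zero => exact h1
      | succ t ih => exact (step t ih).1
    intro X i t
    rcases t with _ | t
    · exact WNModule.bij_zero _ _
    · exact up t X i
  tfae_finish

end Pool.Agent.W543.WM
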